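import Mathlib
import Pool.Agent.H547Z.Free.Final

set_option autoImplicit false

open Filter Topology

namespace Pool.Agent.Results.MP_136c99_an.AGaugeFailsAP

/-- There are a compact pointed metric space `M` and a nontrivial gauge `ω` such that the
Lipschitz-free space `E` of `(M, ω ∘ d)` fails the approximation property. -/
theorem result : ∃ (M : Type) (_ : MetricSpace M) (_ : CompactSpace M) (x0 : M) (ω : ℝ → ℝ),
    (ContinuousOn ω (Set.Ici 0) ∧ StrictMonoOn ω (Set.Ici 0) ∧ ω 0 = 0 ∧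
      (∀ a b : ℝ, 0 ≤ a → 0 ≤ b → ω (a + b) ≤ ω a + ω b) ∧ (∀ t ∈ Set.Icc (0 : ℝ) 1, t ≤ ω t) ∧
      Tendsto (fun t => ω t / t) (𝓝[>] 0) atTop) ∧
    ∃ (E : Type) (_ : NormedAddCommGroup E) (_ : NormedSpace ℝ E) (_ : CompleteSpace E)
      (δ : M → E), δ x0 = 0 ∧ (∀ x y, ‖δ x - δ y‖ = ω (dist x y)) ∧
      Dense ((Submodule.span ℝ (Set.range δ) : Submodule ℝ E) : Set E) ∧
      (∀ f : M → ℝ, f x0 = 0 → (∀ a b, |f a - f b| ≤ ω (dist a b)) →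
        ∃ φ : E →L[ℝ] ℝ, ‖φ‖ ≤ 1 ∧ ∀ x, φ (δ x) = f x) ∧
      ¬ ∀ K : Set E, IsCompact K → ∀ ε : ℝ, 0 < ε → ∃ T : E →L[ℝ] E,
        FiniteDimensional ℝ (LinearMap.range (T : E →ₗ[ℝ] E)) ∧ ∀ z ∈ K, ‖T z - z‖ ≤ ε := by
  obtain ⟨M, i1, i2, x0, ω, hω, E, j1, j2, j3, δ, h0, h1, h2, h3, K, hK, ε, hε, hT⟩ :=
    Pool.Agent.H547Z.Free.q2
  refine ⟨M, i1, i2, x0, ω, hω, E, j1, j2, j3, δ, h0, h1, h2, h3, fun h => ?_⟩
  obtain ⟨T, t1, t2⟩ := h K hK ε hε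
  exact hT T t1 t2

end Pool.Agent.Results.MP_136c99_an.AGaugeFailsAP
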